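import Pool.Agent.W819.NC.Stm

set_option autoImplicit false

/-!
# Two-point functions: distant points in a box of comparable size
-/

namespace Pool.Agent.W460.NC
open H974 Finset Pool.Agent.W819.EN Pool.Agent.W819.NC

theorem okq : Ok P2 := fun _ => ⟨by norm_num, by norm_num⟩

theorem wide {β : Type*} {X : Finset Edg → β} {A B : Finset Edg} (h : ∀ F, X F = X (F ∩ A))
    (hAB : A ⊆ B) (F : Finset Edg) : X F = X (F ∩ B) := by
  rw [h F, h (F ∩ B)]
  congr 1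
  ext e
  simp only [mem_inter]
  constructor
  · rintro ⟨h1, h2⟩
    exact ⟨⟨h1, hAB h2⟩, h2⟩
  · rintro ⟨⟨h1, _⟩, h2⟩
    exact ⟨h1, h2⟩

theorem bx_mono (v : Vtx) {a b : ℤ} (h : a ≤ b) : bx v a ⊆ bx v b := by
  rintro ⟨x, y, _ | _⟩ he
  · simp only [bx, mem_RE_false] at he ⊢
    omega
  · simp only [bx, mem_RE_true] at he ⊢
    omega

theorem an_sub (v : Vtx) (r R : ℕ) {k : ℤ} (h : (R : ℤ) ≤ k) : an v r R ⊆ bx v k :=
  sdiff_subset.trans (bx_mono v h)

/-- sufficient condition for disjoint boxes -/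
theorem bx_disj {v w : Vtx} {a : ℤ}
    (h : w.1 - v.1 > 2 * a ∨ v.2 - w.2 > 2 * a ∨ w.2 - v.2 > 2 * a) :
    Disjoint (bx v a) (bx w a) := by
  rw [Finset.disjoint_left]
  rintro ⟨x, y, _ | _⟩ he he'
  · simp only [bx, mem_RE_false] at he he'
    omega
  · simp only [bx, mem_RE_true] at he he'
    omega

theorem pw {t s : ℝ} (ht : 0 < t) (hs : 1 ≤ s) (hts : t ≤ s) (hst : 1 ≤ t * s) {x y p : ℕ}
    (hxy : x ≤ y) (hyp : y ≤ x + p) : t ^ x ≤ t ^ y * s ^ p ∧ t ^ y ≤ t ^ x * s ^ p := by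
  obtain ⟨d, rfl⟩ := Nat.exists_eq_add_of_le hxy
  have hd : d ≤ p := by omega
  have h1 : s ^ d ≤ s ^ p := pow_le_pow_right₀ hs hd
  have h2 : t ^ d ≤ s ^ d := pow_le_pow_left₀ ht.le hts d
  have h3 : (1 : ℝ) ≤ (t * s) ^ d := one_le_pow₀ hst
  have h4 : 0 < t ^ x := pow_pos ht x
  constructor
  · calc t ^ x ≤ t ^ x * (t * s) ^ d := le_mul_of_one_le_right h4.le h3
      _ = t ^ (x + d) * s ^ d := by rw [mul_pow, pow_add]; ring
      _ ≤ t ^ (x + d) * s ^ p := mul_le_mul_of_nonneg_left h1 (pow_pos ht _).le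
  · rw [pow_add]
    exact mul_le_mul_of_nonneg_left (h2.trans h1) h4.le

/-- TWO2: distant points in a box of comparable size -/
theorem t_TWO2 {N : NT} {W : WT} {K : KT} (h : Sys N W K) (hl : LocG N) (hd : Dec)
    (hx : XPc N W) : Two2 N := by
  intro t1 t2 ht1 ht2
  obtain ⟨s, hs1, hs2, hs3, hs4, hs5⟩ : ∃ s : ℝ, 1 ≤ s ∧ t1 ≤ s ∧ t2 ≤ s ∧ 1 ≤ t1 * s ∧
      1 ≤ t2 * s := by
    refine ⟨1 + t1 + t2 + t1⁻¹ + t2⁻¹, ?_, ?_, ?_, ?_, ?_⟩
    · have := inv_pos.2 ht1; have := inv_pos.2 ht2; linarith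
    · have := inv_pos.2 ht1; have := inv_pos.2 ht2; linarith
    · have := inv_pos.2 ht1; have := inv_pos.2 ht2; linarith
    · have e1 := mul_inv_cancel₀ ht1.ne'
      have : 0 < t1 * (1 + t1 + t2 + t2⁻¹) := by positivity
      have e2 : t1 * (1 + t1 + t2 + t1⁻¹ + t2⁻¹) = t1 * t1⁻¹ + t1 * (1 + t1 + t2 + t2⁻¹) := by
        ring
      rw [e2, e1]
      linarith
    · have e1 := mul_inv_cancel₀ ht2.ne'
      have : 0 < t2 * (1 + t1 + t2 + t1⁻¹) := by positivity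
      have e2 : t2 * (1 + t1 + t2 + t1⁻¹ + t2⁻¹) = t2 * t2⁻¹ + t2 * (1 + t1 + t2 + t1⁻¹) := by
        ring
      rw [e2, e1]
      linarith
  obtain ⟨A1, hA1, hX1⟩ := hx t1 (s ^ 8) ht1 (one_le_pow₀ hs1)
  obtain ⟨A2, hA2, hX2⟩ := hx t2 (s ^ 8) ht2 (one_le_pow₀ hs1)
  obtain ⟨C, hC, hK⟩ := h.kmom (s ^ 16) (one_le_pow₀ hs1) 160
  refine ⟨A1 + A2 + C, by linarith, ?_⟩
  intro v w a D n S ha haD hDa hDn hnD hvw h1 h2 hfar hS
  -- geometry
  rw [abs_le] at h1 h2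
  have hfar' : w.1 - v.1 = D ∨ v.2 - w.2 = D ∨ w.2 - v.2 = D := by
    rcases hfar with h3 | h3
    · exact Or.inl h3
    · rcases (abs_eq (by omega)).1 h3 with h4 | h4
      · exact Or.inr (Or.inl h4)
      · exact Or.inr (Or.inr (by omega))
  have hvS : bx v (8 * a) ⊆ S := (bx_mono v (by omega)).trans hS
  have hwS : bx w (8 * a) ⊆ S := by
    refine Finset.Subset.trans ?_ hS
    rintro ⟨x, y, _ | _⟩ he
    · simp only [bx, mem_RE_false] at he ⊢
      omega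
    · simp only [bx, mem_RE_true] at he ⊢
      omega
  have hdisj : Disjoint (bx v (8 * a)) (bx w (8 * a)) := bx_disj (by omega)
  have hcorv : LRE (v.1 - n) (v.1 - 4 * a) (v.2 - 4 * a) (v.2 + 4 * a) ⊆ S := by
    refine Finset.Subset.trans ?_ hS
    rintro ⟨x, y, _ | _⟩ he
    · simp only [bx, mem_RE_false, mem_LRE_false] at he ⊢
      omega
    · simp only [bx, mem_RE_true, mem_LRE_true] at he ⊢
      omega
  have hcorw : LRE (w.1 + 4 * a) (w.1 + n) (w.2 - 4 * a) (w.2 + 4 * a) ⊆ S := by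
    refine Finset.Subset.trans ?_ hS
    rintro ⟨x, y, _ | _⟩ he
    · simp only [bx, mem_RE_false, mem_LRE_false] at he ⊢
      omega
    · simp only [bx, mem_RE_true, mem_LRE_true] at he ⊢
      omega
  have hdv : Disjoint (bx v (2 * a) ∪ bx w (2 * a))
      (LRE (v.1 - n) (v.1 - 4 * a) (v.2 - 4 * a) (v.2 + 4 * a)) := by
    rw [Finset.disjoint_left]
    rintro ⟨x, y, _ | _⟩ he he'
    · simp only [bx, mem_union, mem_RE_false, mem_LRE_false] at he he'
      omega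
    · simp only [bx, mem_union, mem_RE_true, mem_LRE_true] at he he'
      omega
  have hdw : Disjoint (bx v (2 * a) ∪ bx w (2 * a))
      (LRE (w.1 + 4 * a) (w.1 + n) (w.2 - 4 * a) (w.2 + 4 * a)) := by
    rw [Finset.disjoint_left]
    rintro ⟨x, y, _ | _⟩ he he'
    · simp only [bx, mem_union, mem_RE_false, mem_LRE_false] at he he'
      omega
    · simp only [bx, mem_union, mem_RE_true, mem_LRE_true] at he he'
      omega
  -- locality
  have hN : ∀ (u : Vtx) (F : Finset Edg), N F u 0 (2 * a) = N (F ∩ bx u (8 * a)) u 0 (2 * a) :=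
    fun u => wide (X := fun F => N F u 0 (2 * a)) (fun F => h.geo.loc F u 0 (2 * a) (by omega))
      (an_sub u 0 (2 * a) (by push_cast; omega))
  have hN2 : ∀ (u : Vtx) (F : Finset Edg), N F u 0 (2 * a) = N (F ∩ bx u (2 * a)) u 0 (2 * a) :=
    fun u => wide (X := fun F => N F u 0 (2 * a)) (fun F => h.geo.loc F u 0 (2 * a) (by omega))
      (an_sub u 0 (2 * a) (by push_cast; omega))
  have hN8 : ∀ (u : Vtx) (F : Finset Edg), N F u a (8 * a) = N (F ∩ bx u (8 * a)) u a (8 * a) :=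
    fun u => wide (X := fun F => N F u a (8 * a)) (fun F => h.geo.loc F u a (8 * a) (by omega))
      (an_sub u a (8 * a) (by push_cast; omega))
  have hW1 : ∀ (u : Vtx) (F : Finset Edg), W F u a = W (F ∩ bx u (8 * a)) u a :=
    fun u => wide (X := fun F => W F u a) (fun F => h.wloc F u a ha)
      (an_sub u a (2 * a) (by push_cast; omega))
  have hW4 : ∀ (u : Vtx) (F : Finset Edg), W F u (4 * a) = W (F ∩ bx u (8 * a)) u (4 * a) :=
    fun u => wide (X := fun F => W F u (4 * a)) (fun F => h.wloc F u (4 * a) (by omega))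
      (an_sub u (4 * a) (2 * (4 * a)) (by push_cast; omega))
  -- the law of `U`
  have hg1 : Ex P2 S (fun F => t1 ^ N F v 0 (2 * a)) = G N t1 0 (2 * a) :=
    hl t1 v 0 (2 * a) S (by omega) ((bx_mono v (by push_cast; omega)).trans hvS)
  have hg2 : Ex P2 S (fun F => t2 ^ N F w 0 (2 * a)) = G N t2 0 (2 * a) :=
    hl t2 w 0 (2 * a) S (by omega) ((bx_mono w (by push_cast; omega)).trans hwS)
  have hg1n : 0 ≤ G N t1 0 (2 * a) := by
    rw [← hg1]
    exact Ex_nonneg okq fun F _ => (pow_pos ht1 _).le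
  have hg2n : 0 ≤ G N t2 0 (2 * a) := by
    rw [← hg2]
    exact Ex_nonneg okq fun F _ => (pow_pos ht2 _).le
  have hU : Ex P2 S (fun F => t1 ^ N F v 0 (2 * a) * t2 ^ N F w 0 (2 * a)) =
      G N t1 0 (2 * a) * G N t2 0 (2 * a) := by
    rw [Ex_mul_indep hvS hwS hdisj (fun F _ => by rw [hN v F]) (fun F _ => by rw [hN w F]),
      hg1, hg2]
  have hgg : 0 ≤ G N t1 0 (2 * a) * G N t2 0 (2 * a) := mul_nonneg hg1n hg2n
  -- pieces around `v`
  have hv : ∀ X : Finset Edg → ℕ, (∀ F, X F = X (F ∩ bx v (8 * a))) →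
      Ex P2 S (fun F => t1 ^ N F v 0 (2 * a) * (s ^ 8) ^ X F) ≤ A1 * G N t1 0 (2 * a) →
      Ex P2 S (fun F => t1 ^ N F v 0 (2 * a) * t2 ^ N F w 0 (2 * a) * s ^ (8 * X F)) ≤
        (A1 + A2 + C) * Ex P2 S (fun F => t1 ^ N F v 0 (2 * a) * t2 ^ N F w 0 (2 * a)) := by
    intro X hX hb
    have e1 : Ex P2 S (fun F => t1 ^ N F v 0 (2 * a) * t2 ^ N F w 0 (2 * a) * s ^ (8 * X F)) =
        Ex P2 S (fun F => (t1 ^ N F v 0 (2 * a) * (s ^ 8) ^ X F) * t2 ^ N F w 0 (2 * a)) := by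
      refine Ex_congr fun F _ => ?_
      rw [pow_mul]
      ring
    rw [e1, Ex_mul_indep hvS hwS hdisj (fun F _ => by rw [hN v F, hX F])
      (fun F _ => by rw [hN w F]), hg2, hU]
    refine (mul_le_mul_of_nonneg_right hb hg2n).trans ?_
    rw [mul_assoc]
    exact mul_le_mul_of_nonneg_right (by linarith) hgg
  have hw : ∀ X : Finset Edg → ℕ, (∀ F, X F = X (F ∩ bx w (8 * a))) →
      Ex P2 S (fun F => t2 ^ N F w 0 (2 * a) * (s ^ 8) ^ X F) ≤ A2 * G N t2 0 (2 * a) →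
      Ex P2 S (fun F => t1 ^ N F v 0 (2 * a) * t2 ^ N F w 0 (2 * a) * s ^ (8 * X F)) ≤
        (A1 + A2 + C) * Ex P2 S (fun F => t1 ^ N F v 0 (2 * a) * t2 ^ N F w 0 (2 * a)) := by
    intro X hX hb
    have e1 : Ex P2 S (fun F => t1 ^ N F v 0 (2 * a) * t2 ^ N F w 0 (2 * a) * s ^ (8 * X F)) =
        Ex P2 S (fun F => t1 ^ N F v 0 (2 * a) * (t2 ^ N F w 0 (2 * a) * (s ^ 8) ^ X F)) := by
      refine Ex_congr fun F _ => ?_
      rw [pow_mul]
      ring
    rw [e1, Ex_mul_indep hvS hwS hdisj (fun F _ => by rw [hN v F])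
      (fun F _ => by rw [hN w F, hX F]), hg1, hU]
    refine (mul_le_mul_of_nonneg_left hb hg1n).trans ?_
    have e2 : G N t1 0 (2 * a) * (A2 * G N t2 0 (2 * a)) =
        A2 * (G N t1 0 (2 * a) * G N t2 0 (2 * a)) := by ring
    rw [e2]
    exact mul_le_mul_of_nonneg_right (by linarith) hgg
  -- corridors
  have hcor : ∀ (x y z z' : ℤ), LRE x y z z' ⊆ S →
      Disjoint (bx v (2 * a) ∪ bx w (2 * a)) (LRE x y z z') →
      1 ≤ z' - z → x < y → y - x ≤ (160 : ℕ) * (z' - z) →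
      Ex P2 S (fun F => t1 ^ N F v 0 (2 * a) * t2 ^ N F w 0 (2 * a) *
        s ^ (8 * (2 * K F x y z z'))) ≤
        (A1 + A2 + C) * Ex P2 S (fun F => t1 ^ N F v 0 (2 * a) * t2 ^ N F w 0 (2 * a)) := by
    intro x y z z' hsub hdis h3 h4 h5
    have e1 : Ex P2 S (fun F => t1 ^ N F v 0 (2 * a) * t2 ^ N F w 0 (2 * a) *
        s ^ (8 * (2 * K F x y z z'))) =
        Ex P2 S (fun F => (t1 ^ N F v 0 (2 * a) * t2 ^ N F w 0 (2 * a)) *
          (s ^ 16) ^ K F x y z z') := by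
      refine Ex_congr fun F _ => ?_
      have e8 : 8 * (2 * K F x y z z') = 16 * K F x y z z' := by ring
      rw [e8, pow_mul]
    have hsub2 : bx v (2 * a) ∪ bx w (2 * a) ⊆ S := Finset.union_subset
      ((bx_mono v (by omega)).trans hvS) ((bx_mono w (by omega)).trans hwS)
    rw [e1, Ex_mul_indep hsub2 hsub hdis (fun F _ => by
      rw [wide (X := fun F => N F v 0 (2 * a)) (hN2 v) Finset.subset_union_left F,
        wide (X := fun F => N F w 0 (2 * a)) (hN2 w) Finset.subset_union_right F])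
      (fun F _ => by rw [h.kloc F x y z z']), hU]
    have e3 := hK x y z z' S h3 h4 h5 hsub
    refine (mul_le_mul_of_nonneg_left e3 hgg).trans ?_
    rw [mul_comm]
    exact mul_le_mul_of_nonneg_right (by linarith) hgg
  -- the pieces
  let P : ℕ → Finset Edg → ℕ := fun j F => match j with
    | 0 => W F v a
    | 1 => N F v a (8 * a)
    | 2 => W F v (4 * a)
    | 3 => 2 * K F (v.1 - n) (v.1 - 4 * a) (v.2 - 4 * a) (v.2 + 4 * a)
    | 4 => W F w a
    | 5 => N F w a (8 * a)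
    | 6 => W F w (4 * a)
    | _ => 2 * K F (w.1 + 4 * a) (w.1 + n) (w.2 - 4 * a) (w.2 + 4 * a)
  have hP : ∀ j < 8, Ex P2 S (fun F => t1 ^ N F v 0 (2 * a) * t2 ^ N F w 0 (2 * a) *
      s ^ (8 * P j F)) ≤
      (A1 + A2 + C) * Ex P2 S (fun F => t1 ^ N F v 0 (2 * a) * t2 ^ N F w 0 (2 * a)) := by
    intro j hj
    obtain ⟨x1, x2, x3⟩ := hX1 v a S ha hvS
    obtain ⟨y1, y2, y3⟩ := hX2 w a S ha hwS
    interval_cases j
    · exact hv (fun F => W F v a) (hW1 v) x1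
    · exact hv (fun F => N F v a (8 * a)) (hN8 v) x2
    · exact hv (fun F => W F v (4 * a)) (hW4 v) x3
    · exact hcor _ _ _ _ hcorv hdv (by omega) (by omega) (by push_cast; omega)
    · exact hw (fun F => W F w a) (hW1 w) y1
    · exact hw (fun F => N F w a (8 * a)) (hN8 w) y2
    · exact hw (fun F => W F w (4 * a)) (hW4 w) y3
    · exact hcor _ _ _ _ hcorw hdw (by omega) (by omega) (by push_cast; omega)
  have hsum : ∀ F, ∑ j ∈ range 8, P j F =
      (W F v a + N F v a (8 * a) + W F v (4 * a) +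
        2 * K F (v.1 - n) (v.1 - 4 * a) (v.2 - 4 * a) (v.2 + 4 * a)) +
      (W F w a + N F w a (8 * a) + W F w (4 * a) +
        2 * K F (w.1 + 4 * a) (w.1 + n) (w.2 - 4 * a) (w.2 + 4 * a)) := by
    intro F
    rw [Finset.sum_range_succ, Finset.sum_range_succ, Finset.sum_range_succ,
      Finset.sum_range_succ, Finset.sum_range_succ, Finset.sum_range_succ,
      Finset.sum_range_succ, Finset.sum_range_succ, Finset.sum_range_zero]
    change 0 + W F v a + N F v a (8 * a) + W F v (4 * a) +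
        2 * K F (v.1 - n) (v.1 - 4 * a) (v.2 - 4 * a) (v.2 + 4 * a) +
      W F w a + N F w a (8 * a) + W F w (4 * a) +
        2 * K F (w.1 + 4 * a) (w.1 + n) (w.2 - 4 * a) (w.2 + 4 * a) = _
    ring
  have hcomp : ∀ (u : Vtx) (F : Finset Edg), N F u 0 (2 * a) ≤ N F u 0 n ∧
      N F u 0 n ≤ N F u 0 (2 * a) + (W F u a + N F u a (8 * a) + W F u (4 * a) +
        N F u (4 * a) n) := by
    intro u F
    have e1 := h.join F u a 0 n ha (by omega) (by omega)
    have e2 := h.join F u (4 * a) a n (by omega) (by omega) (by omega)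
    have e3 : 2 * (4 * a) = 8 * a := by ring
    rw [e3] at e2
    exact ⟨h.geo.mono F u 0 0 (2 * a) n le_rfl (by omega), by omega⟩
  have hptw : ∀ F, F ⊆ S →
      t1 ^ N F v 0 (2 * a) * t2 ^ N F w 0 (2 * a) ≤
        t1 ^ N F v 0 n * t2 ^ N F w 0 n * s ^ (∑ j ∈ range 8, P j F) ∧
      t1 ^ N F v 0 n * t2 ^ N F w 0 n ≤
        t1 ^ N F v 0 (2 * a) * t2 ^ N F w 0 (2 * a) * s ^ (∑ j ∈ range 8, P j F) := by
    intro F _
    obtain ⟨c1, c2⟩ := hcomp v F
    obtain ⟨c3, c4⟩ := hcomp w F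
    have c5 := h.left F v (4 * a) (4 * a) n le_rfl (by omega)
    have c6 := h.right F w (4 * a) (4 * a) n le_rfl (by omega)
    push_cast at c5 c6
    obtain ⟨p1, p2⟩ := pw ht1 hs1 hs2 hs4 c1 (c2.trans (Nat.add_le_add_left
      (Nat.add_le_add_left c5 _) _))
    obtain ⟨p3, p4⟩ := pw ht2 hs1 hs3 hs5 c3 (c4.trans (Nat.add_le_add_left
      (Nat.add_le_add_left c6 _) _))
    rw [hsum F, pow_add s (_ + _) (_ + _)]
    constructor
    · refine (mul_le_mul p1 p3 (pow_pos ht2 _).le (by positivity)).trans (le_of_eq ?_)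
      ring
    · refine (mul_le_mul p2 p4 (pow_pos ht2 _).le (by positivity)).trans (le_of_eq ?_)
      ring
  have hfin := hd s (A1 + A2 + C) 8 S
    (fun F => t1 ^ N F v 0 (2 * a) * t2 ^ N F w 0 (2 * a))
    (fun F => t1 ^ N F v 0 n * t2 ^ N F w 0 n) P hs1 (by norm_num) (by linarith)
    (fun F => mul_pos (pow_pos ht1 _) (pow_pos ht2 _)) hP hptw
  rw [hU] at hfin
  exact hfin

end Pool.Agent.W460.NC
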